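import Mathlib

namespace Pool.Agent.Results.MP_ca8ef0_co.NotUniform

/-- The halfspace of the cube {-1,1}^n given by a0 + a1 x1 + ... + an xn ≥ 0. -/
def halfspace (n : ℕ) (a0 : ℝ) (a : Fin n → ℝ) : Set (Fin n → ℤˣ) :=
  {x | 0 ≤ a0 + ∑ i, a i * ((x i : ℤ) : ℝ)}

/-- A is C-bi-Lipschitz transitive for the Hamming distance. -/
def BiLipTrans {n : ℕ} (C : ℝ) (A : Set (Fin n → ℤˣ)) : Prop :=
  ∀ x y : A, ∃ f : A → A, Function.Bijective f ∧ f x = y ∧ f y = x ∧
    ∀ z w : A, z ≠ w →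
      1 / C ≤ (hammingDist (f z).1 (f w).1 : ℝ) / (hammingDist z.1 w.1 : ℝ) ∧
      (hammingDist (f z).1 (f w).1 : ℝ) / (hammingDist z.1 w.1 : ℝ) ≤ C

def wt (M N : ℕ) : Fin (M + N) → ℝ := Fin.addCases (fun _ => 1) (fun _ => (M : ℝ))

theorem mem_iff (M N : ℕ) (z : Fin (M + N) → ℤˣ) :
    z ∈ halfspace (M + N) (2 * M - ∑ i, wt M N i) (wt M N) ↔
      ∑ i : Fin M, (1 - ((z (Fin.castAdd N i) : ℤ) : ℝ)) +
        ∑ j : Fin N, (M : ℝ) * (1 - ((z (Fin.natAdd M j) : ℤ) : ℝ)) ≤ 2 * M := by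
  simp only [halfspace, Set.mem_ofPred_eq, Fin.sum_univ_add, wt, Fin.addCases_left,
    Fin.addCases_right, Finset.sum_sub_distrib, mul_sub, one_mul, mul_one]
  constructor <;> intro h <;> linarith

theorem unit_nonneg (u : ℤˣ) : (0 : ℝ) ≤ 1 - ((u : ℤ) : ℝ) := by
  rcases Int.units_eq_one_or u with rfl | rfl <;> norm_num

def yy (M N : ℕ) : Fin (M + N) → ℤˣ := Fin.addCases (fun _ => -1) (fun _ => 1)

theorem near (M N : ℕ) (z : Fin (M + N) → ℤˣ)
    (hz : z ∈ halfspace (M + N) (2 * M - ∑ i, wt M N i) (wt M N))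
    (hd : hammingDist z (yy M N) ≤ M) (j : Fin N) : z (Fin.natAdd M j) = 1 := by
  by_contra hj
  have hj' : z (Fin.natAdd M j) = -1 := (Int.units_eq_one_or _).resolve_left hj
  rw [mem_iff] at hz
  have h1 : (M : ℝ) * (1 - ((z (Fin.natAdd M j) : ℤ) : ℝ)) ≤
      ∑ j : Fin N, (M : ℝ) * (1 - ((z (Fin.natAdd M j) : ℤ) : ℝ)) :=
    Finset.single_le_sum (f := fun j => (M : ℝ) * (1 - ((z (Fin.natAdd M j) : ℤ) : ℝ)))
      (fun j _ => mul_nonneg (Nat.cast_nonneg _) (unit_nonneg _)) (Finset.mem_univ j)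
  rw [hj'] at h1
  have h1' : (M : ℝ) * (1 - (((-1 : ℤˣ) : ℤ) : ℝ)) = 2 * M := by
    norm_num; ring
  rw [h1'] at h1
  have h2 : ∀ i : Fin M, z (Fin.castAdd N i) = 1 := by
    intro i
    by_contra hi
    have hi' : z (Fin.castAdd N i) = -1 := (Int.units_eq_one_or _).resolve_left hi
    have h3 : (1 - ((z (Fin.castAdd N i) : ℤ) : ℝ)) ≤
        ∑ i : Fin M, (1 - ((z (Fin.castAdd N i) : ℤ) : ℝ)) :=
      Finset.single_le_sum (f := fun i => (1 - ((z (Fin.castAdd N i) : ℤ) : ℝ)))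
        (fun i _ => unit_nonneg _) (Finset.mem_univ i)
    rw [hi'] at h3
    have : (1 - (((-1 : ℤˣ) : ℤ) : ℝ)) = 2 := by norm_num
    linarith
  have hsub : insert (Fin.natAdd M j) (Finset.univ.map (Fin.castAddEmb N)) ⊆
      Finset.univ.filter (fun i => z i ≠ yy M N i) := by
    intro i hi
    rw [Finset.mem_insert] at hi
    rcases hi with rfl | hi
    · rw [Finset.mem_filter]
      simp [yy, hj]
    · obtain ⟨i, -, rfl⟩ := Finset.mem_map.1 hi
      rw [Finset.mem_filter]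
      simp [yy, h2 i]
  have hcard := Finset.card_le_card hsub
  rw [Finset.card_insert_of_notMem] at hcard
  · simp only [Finset.card_map, Finset.card_univ, Fintype.card_fin] at hcard
    have : hammingDist z (yy M N) = (Finset.univ.filter (fun i => z i ≠ yy M N i)).card := rfl
    omega
  · intro h
    obtain ⟨i, -, hi⟩ := Finset.mem_map.1 h
    have := congrArg Fin.val hi
    simp at this
    omega

/-- No constant C works for all halfspaces. -/
theorem result : ∀ C : ℝ, 1 ≤ C → ∃ n : ℕ, 1 ≤ n ∧ ∃ (a0 : ℝ) (a : Fin n → ℝ),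
    ¬ BiLipTrans C (halfspace n a0 a) := by
  intro C _
  obtain ⟨M, hM⟩ := exists_nat_ge C
  refine ⟨M + (2 ^ M + 1), Nat.succ_le_of_lt (by positivity), 2 * M - ∑ i, wt M (2 ^ M + 1) i, wt M (2 ^ M + 1), ?_⟩
  set N := 2 ^ M + 1 with hN
  intro h
  have hx : (fun _ => 1 : Fin (M + N) → ℤˣ) ∈
      halfspace (M + N) (2 * M - ∑ i, wt M N i) (wt M N) := by
    rw [mem_iff]; simp
  have hy : yy M N ∈ halfspace (M + N) (2 * M - ∑ i, wt M N i) (wt M N) := by
    rw [mem_iff]; simp [yy]; linarith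
  have he : ∀ j : Fin N, Function.update (fun _ => 1 : Fin (M + N) → ℤˣ) (Fin.natAdd M j) (-1) ∈
      halfspace (M + N) (2 * M - ∑ i, wt M N i) (wt M N) := by
    intro j
    rw [mem_iff]
    have h1 : ∀ i : Fin M, Function.update (fun _ => 1 : Fin (M + N) → ℤˣ) (Fin.natAdd M j) (-1)
        (Fin.castAdd N i) = 1 := by
      intro i
      rw [Function.update_of_ne]
      intro hh
      have := congrArg Fin.val hh
      simp at this
      omega
    rw [Finset.sum_eq_single j]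
    · simp [h1]; linarith
    · intro b _ hb
      rw [Function.update_of_ne]
      · simp
      · intro hh
        exact hb (Fin.natAdd_injective _ _ hh)
    · simp
  obtain ⟨f, hf, hfx, -, hl⟩ := h ⟨_, hx⟩ ⟨_, hy⟩
  have hnear : ∀ j : Fin N, hammingDist (f ⟨_, he j⟩).1 (yy M N) ≤ M := by
    intro j
    have hne : (⟨_, he j⟩ : halfspace (M + N) (2 * M - ∑ i, wt M N i) (wt M N)) ≠ ⟨_, hx⟩ := by
      intro hh
      have := congrFun (congrArg Subtype.val hh) (Fin.natAdd M j)
      simp at this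
    have h2 := (hl _ _ hne).2
    rw [hfx] at h2
    have h3 : hammingDist (Function.update (fun _ => 1 : Fin (M + N) → ℤˣ) (Fin.natAdd M j) (-1))
        (fun _ => 1) = 1 := by
      unfold hammingDist
      rw [Finset.card_eq_one]
      refine ⟨Fin.natAdd M j, ?_⟩
      ext i
      by_cases hi : i = Fin.natAdd M j
      · subst hi; simp
      · simp [hi]
    simp only [h3, Nat.cast_one, div_one] at h2
    exact_mod_cast h2.trans hM
  let g : Fin N → (Fin M → ℤˣ) := fun j i => (f ⟨_, he j⟩).1 (Fin.castAdd N i)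
  have hg : Function.Injective g := by
    intro j k hjk
    have h1 : f ⟨_, he j⟩ = f ⟨_, he k⟩ := by
      apply Subtype.ext
      funext i
      refine Fin.addCases (fun i => ?_) (fun i => ?_) i
      · exact congrFun hjk i
      · rw [near M N _ (f ⟨_, he j⟩).2 (hnear j), near M N _ (f ⟨_, he k⟩).2 (hnear k)]
    have h2 := congrFun (congrArg Subtype.val (hf.1 h1)) (Fin.natAdd M j)
    by_contra hne
    simp only [Function.update_self] at h2
    rw [Function.update_of_ne (fun hh => hne (Fin.natAdd_injective _ _ hh))] at h2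
    simp at h2
  have := Fintype.card_le_of_injective g hg
  simp [Fintype.card_units_int] at this
  omega

end Pool.Agent.Results.MP_ca8ef0_co.NotUniform
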